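import Pool.Agent.Y16.AF.StmA

/-! The Hessian is positive definite. -/

open MeasureTheory Matrix
open scoped Matrix.Norms.Frobenius Topology
open Pool.Agent.Y16.AF

namespace Pool.Agent.Y255.AF

noncomputable section

variable {L : ℕ} [NeZero L]

/-- Incidence matrix of plaquettes and links. -/
def VM (L : ℕ) [NeZero L] : Matrix (Pq L) (Dy L) ℝ := Matrix.of fun p w => ∑ i, inc p i w.1

theorem rsHm_eq : rs (Hm (L := L)) = (VM L)ᵀ * VM L := by
  ext w w'
  simp only [rs, VM, Matrix.of_apply, Matrix.mul_apply, Matrix.transpose_apply, Hm]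
  refine Finset.sum_congr rfl fun p _ => ?_
  rw [Finset.sum_mul_sum]

theorem rsH01_eq : rs (H01 (L := L)) =
    (Matrix.of fun (p : Pq L) (w : Dy L) => if p.2.2 = .inl 0 then VM L p w else 0)ᵀ *
      (Matrix.of fun (p : Pq L) (w : Dy L) => if p.2.2 = .inl 0 then VM L p w else 0) := by
  ext w w'
  simp only [rs, VM, Matrix.of_apply, Matrix.mul_apply, Matrix.transpose_apply, H01]
  refine Finset.sum_congr rfl fun p _ => ?_
  split_ifs with h
  · rw [Finset.sum_mul_sum]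
  · simp

/-- Extension by zero. -/
def ex (a : Dy L → ℝ) (w : Links L) : ℝ := if h : dyn w then a ⟨w, h⟩ else 0

theorem sum_ex (a : Dy L → ℝ) (f : Links L → ℝ) :
    ∑ w : Dy L, f w.1 * a w = ∑ w : Links L, f w * ex a w := by
  classical
  have h1 : ∑ w : Links L, f w * ex a w =
      ∑ w ∈ Finset.univ.filter (fun w : Links L => dyn w), f w * ex a w := by
    rw [Finset.sum_filter]
    refine Finset.sum_congr rfl fun w _ => ?_
    split_ifs with h
    · rfl
    · simp [ex, h]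
  rw [h1]
  have h2 := Finset.sum_subtype (s := Finset.univ.filter (fun w : Links L => dyn w))
    (p := dyn) (F := inferInstance) (fun x => by simp) (fun w => f w * ex a w)
  rw [h2]
  refine Finset.sum_congr rfl fun w _ => ?_
  rw [ex, dif_pos w.2]

/-- The value of a leg. -/
def leg (a : Dy L → ℝ) (p : Pq L) (i : Fin 4) : ℝ :=
  match lv p.2.1 p.2.2 i with
  | none => 0
  | some b => sg p.2.2 i * ex a (p.1 + ls p.2.2 i, b)

theorem sum_inc (a : Dy L → ℝ) (p : Pq L) (i : Fin 4) :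
    ∑ w : Links L, inc p i w * ex a w = leg a p i := by
  classical
  unfold leg
  cases hl : lv p.2.1 p.2.2 i with
  | none => simp [inc, hl]
  | some b =>
    rw [Finset.sum_eq_single (p.1 + ls p.2.2 i, b)]
    · simp [inc, hl]
    · intro w _ hw
      have : ¬ (some b = some w.2 ∧ p.1 + ls p.2.2 i = w.1) := by
        rintro ⟨h1, h2⟩
        apply hw
        have h3 : b = w.2 := by simpa using h1
        rw [h2, h3]
      rw [inc, hl, if_neg this, zero_mul]
    · simp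

theorem VM_mulVec (a : Dy L → ℝ) (p : Pq L) : (VM L *ᵥ a) p = ∑ i, leg a p i := by
  have h1 : (VM L *ᵥ a) p = ∑ w : Dy L, (∑ i, inc p i w.1) * a w := rfl
  rw [h1, sum_ex a (fun w => ∑ i, inc p i w)]
  simp only [Finset.sum_mul]
  rw [Finset.sum_comm]
  exact Finset.sum_congr rfl fun i _ => sum_inc a p i

/-- The spatial variables. -/
def AS (a : Dy L → ℝ) (t : ℕ) (x : Sp L) (j : Fin 3) : ℝ :=
  if h : 0 < t ∧ t < L then ex a (x, .inr (⟨t - 1, by omega⟩, j)) else 0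

/-- The time variables. -/
def AT (a : Dy L → ℝ) (t : Fin L) (x : Sp L) : ℝ := ex a (x, .inl t)

theorem X_inl (a : Dy L → ℝ) (x : Sp L) (t : Fin L) (j : Fin 3) :
    (VM L *ᵥ a) (x, t, .inl j) =
      AT a t x - AT a t (x + Pi.single j 1) + AS a (t + 1) x j - AS a t x j := by
  rw [VM_mulVec, Fin.sum_univ_four]
  have e0 : leg a (x, t, .inl j) 0 = -AT a t (x + Pi.single j 1) := by
    simp [leg, lv, vT, sg, sb, ls, AT]
  have e2 : leg a (x, t, .inl j) 2 = AT a t x := by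
    simp [leg, lv, vT, sg, sb, ls, AT]
  have e1 : leg a (x, t, .inl j) 1 = -AS a t x j := by
    by_cases h : 0 < (t : ℕ)
    · simp [leg, lv, vS, sg, sb, ls, AS, h]
    · simp [leg, lv, vS, AS, h]
  have e3 : leg a (x, t, .inl j) 3 = AS a (t + 1) x j := by
    by_cases h : (t : ℕ) + 1 < L
    · simp [leg, lv, vS, sg, sb, ls, AS, h]
    · simp [leg, lv, vS, AS, h]
  rw [e0, e1, e2, e3]
  ring

/-- The quadratic form. -/
def QF (a : Dy L → ℝ) : ℝ := ∑ p, (VM L *ᵥ a) p ^ 2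

theorem QF_nonneg (a : Dy L → ℝ) : 0 ≤ QF a := Finset.sum_nonneg fun _ _ => sq_nonneg _

theorem X_le (a : Dy L → ℝ) (p : Pq L) : |(VM L *ᵥ a) p| ≤ √(QF a) := by
  rw [← Real.sqrt_sq_eq_abs]
  refine Real.sqrt_le_sqrt ?_
  exact Finset.single_le_sum (f := fun p => (VM L *ᵥ a) p ^ 2) (fun _ _ => sq_nonneg _)
    (Finset.mem_univ p)

omit [NeZero L] in
theorem AT_zero (a : Dy L → ℝ) (t : Fin L) (x : Sp L) (h : ¬ ((t : ℕ) + 1 = L ∧ x ≠ 0)) :
    AT a t x = 0 := by
  have h1 : ¬ dyn ((x, .inl t) : Links L) := fun hd => h (hd t rfl)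
  rw [AT, ex, dif_neg h1]

theorem AS_bound (a : Dy L → ℝ) (x : Sp L) (j : Fin 3) : ∀ t : ℕ, t < L →
    |AS a t x j| ≤ t * √(QF a) := by
  intro t
  induction t with
  | zero => intro _; simp [AS]
  | succ t ih =>
    intro ht
    have h1 := X_inl a x ⟨t, by omega⟩ j
    rw [AT_zero a _ _ (by simp; omega), AT_zero a _ _ (by simp; omega)] at h1
    have h2 := X_le a (x, ⟨t, by omega⟩, .inl j)
    rw [h1] at h2
    simp only [sub_self, zero_add] at h2
    have h3 := ih (by omega)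
    have h4 := abs_add_le (AS a (t + 1) x j - AS a t x j) (AS a t x j)
    rw [sub_add_cancel] at h4
    push_cast
    linarith

theorem AT_step (a : Dy L → ℝ) (t : Fin L) (ht : (t : ℕ) + 1 = L) (x : Sp L) (j : Fin 3) :
    |AT a t (x + Pi.single j 1) - AT a t x| ≤ L * √(QF a) := by
  have h1 := X_inl a x t j
  have h2 := X_le a (x, t, .inl j)
  have h3 := AS_bound a x j t t.2
  have h4 : AS a (t + 1) x j = 0 := by
    rw [AS, dif_neg (by omega)]
  rw [h4] at h1
  have h5 : AT a t (x + Pi.single j 1) - AT a t x =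
      -((VM L *ᵥ a) (x, t, .inl j) + AS a t x j) := by rw [h1]; ring
  rw [h5, abs_neg]
  refine (abs_add_le _ _).trans ?_
  have h6 : ((t : ℕ) : ℝ) + 1 = (L : ℝ) := by exact_mod_cast ht
  have h7 : (L : ℝ) * √(QF a) = (((t : ℕ) : ℝ) + 1) * √(QF a) := by rw [h6]
  rw [h7]
  linarith

theorem AT_steps (a : Dy L → ℝ) (t : Fin L) (ht : (t : ℕ) + 1 = L) (j : Fin 3) (k : ℕ) :
    ∀ x : Sp L, |AT a t (x + Pi.single j (k : ZMod L)) - AT a t x| ≤ k * (L * √(QF a)) := by
  induction k with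
  | zero => intro x; simp
  | succ k ih =>
    intro x
    have e : x + Pi.single j ((k + 1 : ℕ) : ZMod L) =
        (x + Pi.single j (k : ZMod L)) + Pi.single j 1 := by
      rw [add_assoc, ← Pi.single_add]
      push_cast
      rfl
    have h1 := AT_step a t ht (x + Pi.single j (k : ZMod L)) j
    have h2 := ih x
    rw [e]
    have h3 := abs_add_le (AT a t ((x + Pi.single j (k : ZMod L)) + Pi.single j 1) -
      AT a t (x + Pi.single j (k : ZMod L))) (AT a t (x + Pi.single j (k : ZMod L)) - AT a t x)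
    rw [sub_add_sub_cancel] at h3
    push_cast
    linarith

theorem AT_bound (a : Dy L → ℝ) (t : Fin L) (ht : (t : ℕ) + 1 = L) (x : Sp L) :
    |AT a t x| ≤ 3 * (L : ℝ) ^ 2 * √(QF a) := by
  have hx : x = ((0 + Pi.single 0 (((x 0).val : ℕ) : ZMod L)) +
      Pi.single 1 (((x 1).val : ℕ) : ZMod L)) + Pi.single 2 (((x 2).val : ℕ) : ZMod L) := by
    simp only [ZMod.natCast_val, ZMod.cast_id', id]
    funext j
    fin_cases j <;> simp
  have h0 : AT a t 0 = 0 := AT_zero a t 0 (by simp)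
  have k0 := AT_steps a t ht 0 (x 0).val 0
  have k1 := AT_steps a t ht 1 (x 1).val (0 + Pi.single 0 (((x 0).val : ℕ) : ZMod L))
  have k2 := AT_steps a t ht 2 (x 2).val ((0 + Pi.single 0 (((x 0).val : ℕ) : ZMod L)) +
      Pi.single 1 (((x 1).val : ℕ) : ZMod L))
  rw [← hx] at k2
  rw [h0] at k0
  have hL : ∀ j, ((x j).val : ℝ) ≤ L := fun j => by exact_mod_cast (ZMod.val_lt (x j)).le
  have hq : 0 ≤ (L : ℝ) * √(QF a) := by positivity
  have b0 := mul_le_mul_of_nonneg_right (hL 0) hq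
  have b1 := mul_le_mul_of_nonneg_right (hL 1) hq
  have b2 := mul_le_mul_of_nonneg_right (hL 2) hq
  have c0 := abs_le.1 k0
  have c1 := abs_le.1 k1
  have c2 := abs_le.1 k2
  rw [abs_le]
  constructor <;> nlinarith [c0.1, c0.2, c1.1, c1.2, c2.1, c2.2]

/-- Coercivity. -/
theorem coercive (a : Dy L → ℝ) (w : Dy L) : a w ^ 2 ≤ 9 * (L : ℝ) ^ 4 * QF a := by
  have hL : (1 : ℝ) ≤ L := by exact_mod_cast NeZero.one_le
  have hb : |a w| ≤ 3 * (L : ℝ) ^ 2 * √(QF a) := by
    obtain ⟨⟨x, b⟩, hw⟩ := w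
    have hex : a ⟨(x, b), hw⟩ = ex a (x, b) := by rw [ex, dif_pos hw]
    rw [hex]
    rcases b with t | ⟨s, j⟩
    · exact AT_bound a t (hw t rfl).1 x
    · have hs := s.2
      have h1 := AS_bound a x j (s + 1) (by omega)
      have h2 : AS a (s + 1) x j = ex a (x, .inr (s, j)) := by
        rw [AS, dif_pos (by omega)]
        rfl
      rw [h2] at h1
      refine h1.trans ?_
      refine mul_le_mul_of_nonneg_right ?_ (Real.sqrt_nonneg _)
      have h3 : (((s : ℕ) + 1 : ℕ) : ℝ) ≤ L := by exact_mod_cast (by omega : (s : ℕ) + 1 ≤ L)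
      nlinarith
  have h1 := pow_le_pow_left₀ (abs_nonneg _) hb 2
  rw [sq_abs, mul_pow, Real.sq_sqrt (QF_nonneg a)] at h1
  refine h1.trans (le_of_eq ?_)
  ring

theorem qf_eq (a : Dy L → ℝ) : a ⬝ᵥ (rs (Hm (L := L)) *ᵥ a) = QF a := by
  rw [rsHm_eq, ← Matrix.mulVec_mulVec, Matrix.dotProduct_mulVec, Matrix.vecMul_transpose]
  simp only [dotProduct, QF]
  exact Finset.sum_congr rfl fun p _ => by ring

theorem posDef : (rs (Hm (L := L))).PosDef := by
  rw [rsHm_eq]
  have h := Matrix.PosDef.conjTranspose_mul_self (VM L) (by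
    intro a b hab
    have h1 : VM L *ᵥ (a - b) = 0 := by rw [Matrix.mulVec_sub, hab, sub_self]
    have h2 : QF (a - b) = 0 := by
      rw [QF, h1]; simp
    funext w
    have h3 := coercive (a - b) w
    rw [h2, mul_zero] at h3
    have h4 : (a - b) w = 0 := by
      have := le_antisymm h3 (sq_nonneg _)
      exact pow_eq_zero_iff two_ne_zero |>.1 this
    have h5 : a w - b w = 0 := h4
    linarith)
  rwa [Matrix.conjTranspose_eq_transpose_of_trivial] at h

theorem inv_mul_self : (rs (Hm (L := L)))⁻¹ * rs (Hm (L := L)) = 1 :=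
  Matrix.nonsing_inv_mul _ ((Matrix.isUnit_iff_isUnit_det _).1 posDef.isUnit)

theorem mul_inv_self : rs (Hm (L := L)) * (rs (Hm (L := L)))⁻¹ = 1 :=
  Matrix.mul_nonsing_inv _ ((Matrix.isUnit_iff_isUnit_det _).1 posDef.isUnit)

theorem inv_bound (w w' : Dy L) : |(rs (Hm (L := L)))⁻¹ w w'| ≤ 9 * (L : ℝ) ^ 4 := by
  classical
  set Hi := (rs (Hm (L := L)))⁻¹ with hHi
  have key : ∀ v v' : Dy L, Hi v' v ^ 2 ≤ 9 * (L : ℝ) ^ 4 * Hi v v := by
    intro v v'
    have h1 := coercive (Hi *ᵥ Pi.single v 1) v'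
    have h2 : ∀ u, (Hi *ᵥ Pi.single v 1) u = Hi u v := by
      intro u
      rw [Matrix.mulVec_single_one]
      rfl
    have h3 : QF (Hi *ᵥ Pi.single v 1) = Hi v v := by
      rw [← qf_eq, Matrix.mulVec_mulVec, hHi, mul_inv_self, Matrix.one_mulVec]
      rw [dotProduct_single, mul_one]
      exact h2 v
    rw [h2, h3] at h1
    exact h1
  have hdiag : ∀ v, Hi v v ≤ 9 * (L : ℝ) ^ 4 := by
    intro v
    have h1 := key v v
    by_contra hcon
    rw [not_le] at hcon
    have h2 : 0 ≤ 9 * (L : ℝ) ^ 4 := by positivity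
    nlinarith
  have hK : 0 ≤ 9 * (L : ℝ) ^ 4 := by positivity
  have h1 := key w' w
  have h2 := hdiag w'
  refine abs_le_of_sq_le_sq ?_ hK
  nlinarith

theorem card_le : ((Fintype.card (Dy L) : ℕ) : ℝ) ≤ 4 * (L : ℝ) ^ 4 := by
  classical
  have h1 : Fintype.card (Dy L) ≤ Fintype.card (Sp L × Option (Fin (L - 1) × Fin 3)) := by
    refine Fintype.card_le_of_injective
      (fun w => (w.1.1, match w.1.2 with | .inl _ => none | .inr b => some b)) ?_
    rintro ⟨⟨x, b⟩, hw⟩ ⟨⟨y, c⟩, hv⟩ h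
    rcases b with t | b <;> rcases c with s | c
    · simp only [Prod.mk.injEq] at h
      have h2 := (hw t rfl).1
      have h3 := (hv s rfl).1
      have h4 : t = s := Fin.ext (by omega)
      subst h4
      have h5 : x = y := h.1
      subst h5
      rfl
    · simp at h
    · simp at h
    · simp only [Prod.mk.injEq, Option.some.injEq] at h
      obtain ⟨h5, h6⟩ := h
      subst h5 h6
      rfl
  have h2 : Fintype.card (Sp L × Option (Fin (L - 1) × Fin 3)) = L ^ 3 * ((L - 1) * 3 + 1) := by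
    simp [Fintype.card_prod, Fintype.card_option, ZMod.card]
  have hL : 1 ≤ L := NeZero.one_le
  have h3 : L ^ 3 * ((L - 1) * 3 + 1) ≤ 4 * L ^ 4 := by
    have h4 : (L - 1) * 3 + 1 ≤ 4 * L := by omega
    calc L ^ 3 * ((L - 1) * 3 + 1) ≤ L ^ 3 * (4 * L) := Nat.mul_le_mul_left _ h4
      _ = 4 * L ^ 4 := by ring
  have h5 : Fintype.card (Dy L) ≤ 4 * L ^ 4 := h1.trans (h2.le.trans h3)
  exact_mod_cast h5

theorem card_pq : (Fintype.card (Pq L) : ℝ) = 6 * (L : ℝ) ^ 4 := by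
  have h : Fintype.card (Pq L) = 6 * L ^ 4 := by
    simp [Fintype.card_prod, Fintype.card_sum, ZMod.card]
    ring
  rw [h]
  push_cast
  ring

omit [NeZero L] in
theorem inc_le (p : Pq L) (i : Fin 4) (w : Links L) : |inc p i w| ≤ 1 := by
  unfold inc sg
  split_ifs <;> simp

/-- Entry bounds. -/
theorem entry (c : Pq L → Fin 4 → Fin 4 → ℝ) (hc : ∀ p i j, |c p i j| ≤ 10) (w w' : Links L) :
    |∑ p : Pq L, ∑ i, ∑ j, inc p i w * inc p j w' * c p i j| ≤ 1000 * (L : ℝ) ^ 4 := by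
  have h1 : ∀ p : Pq L, |∑ i : Fin 4, ∑ j : Fin 4, inc p i w * inc p j w' * c p i j| ≤ 160 := by
    intro p
    refine (Finset.abs_sum_le_sum_abs _ _).trans ?_
    have h2 : ∀ i ∈ (Finset.univ : Finset (Fin 4)),
        |∑ j : Fin 4, inc p i w * inc p j w' * c p i j| ≤ 40 := by
      intro i _
      refine (Finset.abs_sum_le_sum_abs _ _).trans ?_
      have h3 : ∀ j ∈ (Finset.univ : Finset (Fin 4)),
          |inc p i w * inc p j w' * c p i j| ≤ 10 := by
        intro j _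
        rw [abs_mul, abs_mul]
        have h4 : |inc p i w| * |inc p j w'| ≤ 1 :=
          mul_le_one₀ (inc_le p i w) (abs_nonneg _) (inc_le p j w')
        calc |inc p i w| * |inc p j w'| * |c p i j| ≤ 1 * 10 :=
              mul_le_mul h4 (hc p i j) (abs_nonneg _) zero_le_one
          _ = 10 := by norm_num
      refine (Finset.sum_le_sum h3).trans ?_
      simp
      norm_num
    refine (Finset.sum_le_sum h2).trans ?_
    simp
    norm_num
  refine (Finset.abs_sum_le_sum_abs _ _).trans ?_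
  refine (Finset.sum_le_sum fun p _ => h1 p).trans ?_
  rw [Finset.sum_const, Finset.card_univ, nsmul_eq_mul, card_pq]
  have : 0 ≤ (L : ℝ) ^ 4 := by positivity
  linarith

theorem al_bound (κ : Fin 3 ⊕ Fin 3) : 0 ≤ al L κ ∧ al L κ ≤ 1 := by
  have hL : (1 : ℝ) ≤ L := by exact_mod_cast NeZero.one_le
  unfold al
  split_ifs
  · refine ⟨by positivity, ?_⟩
    rw [div_le_one (by positivity)]
    nlinarith
  · exact ⟨le_rfl, zero_le_one⟩

theorem ta_bound (t : Fin L) (κ : Fin 3 ⊕ Fin 3) : 0 ≤ ta t κ ∧ ta t κ ≤ 1 := by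
  have hL : (1 : ℝ) ≤ L := by exact_mod_cast NeZero.one_le
  have ht : ((t : ℕ) : ℝ) ≤ L := by exact_mod_cast t.2.le
  have h : 0 ≤ ((t : ℕ) : ℝ) / (L : ℝ) ^ 2 ∧ ((t : ℕ) : ℝ) / (L : ℝ) ^ 2 ≤ 1 := by
    refine ⟨by positivity, ?_⟩
    rw [div_le_one (by positivity)]
    nlinarith
  rcases κ with j | m
  · unfold ta
    dsimp only
    split_ifs
    · exact h
    · exact ⟨le_rfl, zero_le_one⟩
  · unfold ta
    dsimp only
    split_ifs
    · exact ⟨le_rfl, zero_le_one⟩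
    · exact h

theorem qc_bound {α τ : ℝ} (hα : 0 ≤ α ∧ α ≤ 1) (hτ : 0 ≤ τ ∧ τ ≤ 1) (i j : Fin 4) :
    |qc α τ i j| ≤ 10 := by
  unfold qc
  rw [abs_le]
  split_ifs <;> constructor <;> linarith [hα.1, hα.2, hτ.1, hτ.2]

theorem rc_bound {α τ : ℝ} (hα : 0 ≤ α ∧ α ≤ 1) (hτ : 0 ≤ τ ∧ τ ≤ 1) (i j : Fin 4) :
    |rc α τ i j| ≤ 10 := by
  unfold rc
  have h1 : α ^ 2 ≤ 1 := by nlinarith [hα.1, hα.2]
  have h2 : τ ^ 2 ≤ 1 := by nlinarith [hτ.1, hτ.2]
  have h3 : α * τ ≤ 1 := by nlinarith [hα.1, hα.2, hτ.1, hτ.2]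
  have h4 : 0 ≤ α * τ := mul_nonneg hα.1 hτ.1
  rw [abs_le]
  split_ifs <;> constructor <;> nlinarith [sq_nonneg α, sq_nonneg τ]

theorem entry_Hm (w w' : Dy L) : |rs (Hm (L := L)) w w'| ≤ 1000 * (L : ℝ) ^ 4 := by
  have h := entry (L := L) (fun _ _ _ => 1) (fun _ _ _ => by norm_num) w.1 w'.1
  simpa [rs, Hm] using h

theorem entry_Qm (w w' : Dy L) : |rs (Qm (L := L)) w w'| ≤ 1000 * (L : ℝ) ^ 4 :=
  entry (L := L) (fun p i j => qc (al L p.2.2) (ta p.2.1 p.2.2) i j)
    (fun p i j => qc_bound (al_bound _) (ta_bound _ _) i j) w.1 w'.1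

theorem entry_Rm (w w' : Dy L) : |rs (Rm (L := L)) w w'| ≤ 1000 * (L : ℝ) ^ 4 :=
  entry (L := L) (fun p i j => rc (al L p.2.2) (ta p.2.1 p.2.2) i j)
    (fun p i j => rc_bound (al_bound _) (ta_bound _ _) i j) w.1 w'.1

theorem entry_H01 (w w' : Dy L) : |rs (H01 (L := L)) w w'| ≤ 1000 * (L : ℝ) ^ 4 := by
  have h := entry (L := L) (fun p _ _ => if p.2.2 = .inl 0 then 1 else 0)
    (fun p _ _ => by split_ifs <;> norm_num) w.1 w'.1
  have e : rs (H01 (L := L)) w w' = ∑ p : Pq L, ∑ i, ∑ j, inc p i w.1 * inc p j w'.1 *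
      (if p.2.2 = .inl 0 then (1 : ℝ) else 0) := by
    simp only [rs, H01, Matrix.of_apply, mul_ite, mul_one, mul_zero]
  rw [e]
  exact h

/-! Symmetries. -/

theorem sym_gen (c : Pq L → Fin 4 → Fin 4 → ℝ) (s : ℝ) (hc : ∀ p i j, c p j i = s * c p i j)
    (w w' : Links L) : ∑ p : Pq L, ∑ i, ∑ j, inc p i w' * inc p j w * c p i j =
      s * ∑ p : Pq L, ∑ i, ∑ j, inc p i w * inc p j w' * c p i j := by
  rw [Finset.mul_sum]
  refine Finset.sum_congr rfl fun p _ => ?_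
  rw [Finset.sum_comm, Finset.mul_sum]
  refine Finset.sum_congr rfl fun i _ => ?_
  rw [Finset.mul_sum]
  refine Finset.sum_congr rfl fun j _ => ?_
  rw [hc]
  ring

theorem sym_Hm : (rs (Hm (L := L)))ᵀ = rs (Hm (L := L)) := by
  rw [rsHm_eq, Matrix.transpose_mul, Matrix.transpose_transpose]

theorem sym_H01 : (rs (H01 (L := L)))ᵀ = rs (H01 (L := L)) := by
  rw [rsH01_eq, Matrix.transpose_mul, Matrix.transpose_transpose]

theorem sym_Rm : (rs (Rm (L := L)))ᵀ = rs (Rm (L := L)) := by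
  ext w w'
  have h := sym_gen (L := L) (fun p i j => rc (al L p.2.2) (ta p.2.1 p.2.2) i j) 1 (by
    intro p i j
    simp only [rc, one_mul]
    congr 2
    refine if_congr ?_ rfl rfl
    exact ne_comm) w.1 w'.1
  rw [one_mul] at h
  exact h

theorem sym_Qm : (rs (Qm (L := L)))ᵀ = -rs (Qm (L := L)) := by
  ext w w'
  have h := sym_gen (L := L) (fun p i j => qc (al L p.2.2) (ta p.2.1 p.2.2) i j) (-1) (by
    intro p i j
    simp only [qc]
    rcases lt_trichotomy i j with h | h | h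
    · rw [if_neg h.not_gt, if_pos h, if_pos h]; ring
    · subst h; simp
    · rw [if_pos h, if_neg h.not_gt, if_pos h]; ring) w.1 w'.1
  rw [Matrix.neg_apply, ← neg_one_mul]
  exact h

/-! The trace. -/

/-- The plaquettes in the plane of the background field. -/
def V0 (L : ℕ) [NeZero L] : Matrix (Pq L) (Dy L) ℝ :=
  Matrix.of fun (p : Pq L) (w : Dy L) => if p.2.2 = .inl 0 then VM L p w else 0

theorem diag_nonneg (p : Pq L) :
    0 ≤ (VM L * (rs (Hm (L := L)))⁻¹ * (VM L)ᵀ) p p := by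
  have h1 : ((rs (Hm (L := L)))⁻¹).PosSemidef := posDef.inv.posSemidef
  have h2 := h1.mul_mul_conjTranspose_same (VM L)
  rw [Matrix.conjTranspose_eq_transpose_of_trivial] at h2
  exact h2.diag_nonneg

theorem V0_diag (p : Pq L) : (V0 L * (rs (Hm (L := L)))⁻¹ * (V0 L)ᵀ) p p =
    if p.2.2 = .inl 0 then (VM L * (rs (Hm (L := L)))⁻¹ * (VM L)ᵀ) p p else 0 := by
  simp only [Matrix.mul_apply, Matrix.transpose_apply, V0, Matrix.of_apply]
  split_ifs with h
  · rfl
  · simp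

theorem trace_eq (V : Matrix (Pq L) (Dy L) ℝ) (Hi : Matrix (Dy L) (Dy L) ℝ) :
    trace (Hi * (Vᵀ * V)) = ∑ p, (V * Hi * Vᵀ) p p := by
  rw [← Matrix.mul_assoc, Matrix.trace_mul_comm, ← Matrix.mul_assoc]
  rfl

theorem trace_bounds : 0 ≤ trace ((rs (Hm (L := L)))⁻¹ * rs (H01 (L := L))) ∧
    trace ((rs (Hm (L := L)))⁻¹ * rs (H01 (L := L))) ≤ 4 * (L : ℝ) ^ 4 := by
  have h1 : trace ((rs (Hm (L := L)))⁻¹ * rs (H01 (L := L))) =
      ∑ p, if p.2.2 = .inl 0 then (VM L * (rs (Hm (L := L)))⁻¹ * (VM L)ᵀ) p p else 0 := by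
    have h2 : rs (H01 (L := L)) = (V0 L)ᵀ * V0 L := rsH01_eq
    rw [h2, trace_eq]
    exact Finset.sum_congr rfl fun p _ => V0_diag p
  rw [h1]
  constructor
  · refine Finset.sum_nonneg fun p _ => ?_
    split_ifs
    · exact diag_nonneg p
    · exact le_rfl
  · have h3 : (∑ p : Pq L, if p.2.2 = .inl 0 then
        (VM L * (rs (Hm (L := L)))⁻¹ * (VM L)ᵀ) p p else 0) ≤
        ∑ p : Pq L, (VM L * (rs (Hm (L := L)))⁻¹ * (VM L)ᵀ) p p := by
      refine Finset.sum_le_sum fun p _ => ?_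
      split_ifs
      · exact le_rfl
      · exact diag_nonneg p
    refine h3.trans ?_
    rw [← trace_eq, ← rsHm_eq, inv_mul_self, Matrix.trace_one]
    exact card_le

theorem af_hpd : S_HPD := by
  intro L _ _
  have hb : ∀ w w' : Dy L, |(rs (Hm (L := L)))⁻¹ w w'| ≤ 100 * (L : ℝ) ^ 4 := by
    intro w w'
    have h1 := inv_bound w w'
    have h2 : 0 ≤ (L : ℝ) ^ 4 := by positivity
    linarith
  exact ⟨posDef, hb, trace_bounds.1, trace_bounds.2,
    fun w w' => ⟨entry_Hm w w', entry_Qm w w', entry_Rm w w', entry_H01 w w'⟩, card_le,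
    sym_Hm, sym_Qm, sym_Rm, sym_H01⟩

end

end Pool.Agent.Y255.AF
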